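import Pool.Agent.H64.SC.Api2
import Pool.Agent.H19.SCD.TargetsD

/-!
Modules EXG, HMU, TEL, STP of block B4 (MP_f2954d_ag).
-/

namespace Pool.Agent.H64.SCD

open SC

theorem exg : T_EXG := by
  intro k K _ _ _ _
  obtain ⟨t, ht⟩ := IntermediateField.fg_top k K
  classical
  refine ⟨⟨t.card + 1, fun i => if h : i.val = 0 then 1 else
    (t.equivFin.symm ⟨i.val - 1, by have := i.2; omega⟩ : K)⟩, ⟨⟨0, by simp⟩, by simp⟩,
    ⟨⟨0, by simp⟩, by simp⟩, ?_⟩
  rw [Generates, eq_top_iff, ← ht, IntermediateField.adjoin_le_iff]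
  intro x hx
  apply IntermediateField.subset_adjoin
  refine ⟨⟨(t.equivFin ⟨x, hx⟩).val + 1, by
    have := (t.equivFin ⟨x, hx⟩).2; simp⟩, ⟨0, by simp⟩, ?_⟩
  simp

theorem hmu : T_HMU := by
  intro k K _ _ _ φ b m n hb hmn hfin
  obtain ⟨i, hi⟩ := hb
  -- multiplication by b_i^(n-m)
  let f : K →ₗ[k] K := LinearMap.mulRight k (b.s i ^ (n - m))
  have hinj : Function.Injective f := by
    intro x y hxy
    exact mul_right_cancel₀ (pow_ne_zero _ hi) hxy
  have hmap : ∀ g ∈ Hs k ((-(n : ℤ), b) :: φ), f g ∈ Hs k ((-(m : ℤ), b) :: φ) := by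
    intro g hg v
    rcases hg v with h | h
    · left; simp [h]
    by_cases hg0 : g = 0
    · left; simp [hg0]
    right
    show _ ≤ v.ord (g * b.s i ^ (n - m))
    rw [v.ord_mul _ _ hg0 (pow_ne_zero _ hi), v.ord_pow, DV.val_cons]
    rw [DV.val_cons] at h
    have h1 := v.mo_le b i hi
    have h2 : ((n - m : ℕ) : ℤ) = n - m := by omega
    rw [h2]
    have h3 : 0 ≤ (n : ℤ) - m := by omega
    nlinarith [mul_le_mul_of_nonneg_left h1 h3]
  let g : Hs k ((-(n : ℤ), b) :: φ) →ₗ[k] Hs k ((-(m : ℤ), b) :: φ) := f.restrict hmap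
  have hg : Function.Injective g := by
    intro x y hxy
    apply Subtype.ext
    apply hinj
    exact congrArg Subtype.val hxy
  exact ⟨Module.Finite.of_injective g hg, LinearMap.finrank_le_finrank_of_injective hg⟩

end Pool.Agent.H64.SCD
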