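import Pool.Agent.H64.SC.Api2
import Pool.Agent.H19.SCD.TargetsD

/-!
Modules STP, TEL of block B4 (MP_f2954d_ag).
-/

namespace Pool.Agent.H64.SCD

open SC

theorem generates_up {k K L J : Type} [Field k] [Field K] [Algebra k K] [Field L] [Algebra K L]
    [Algebra k L] [IsScalarTower k K L] {S : J → Sys K} {U : Var S → L} (hU : IsGen S U)
    {t : Sys K} (ht : Generates k t) : Generates (kU k U) (t.up L) := by
  set E : IntermediateField (kU k U) L := IntermediateField.adjoin (kU k U)
    {z : L | ∃ i j, z = (t.up L).s i / (t.up L).s j} with hE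
  have hK : ∀ x : K, algebraMap K L x ∈ E := by
    have h1 : (⊤ : IntermediateField k K) ≤
        (E.restrictScalars k).comap (IsScalarTower.toAlgHom k K L) := by
      rw [← ht, IntermediateField.adjoin_le_iff]
      rintro z ⟨i, j, rfl⟩
      show algebraMap K L (t.s i / t.s j) ∈ E
      apply IntermediateField.subset_adjoin
      exact ⟨i, j, by simp⟩
    intro x
    exact h1 (IntermediateField.mem_top (x := x))
  have hUE : ∀ x, U x ∈ E := by
    intro x
    have : U x ∈ kU k U := IntermediateField.subset_adjoin k _ ⟨x, rfl⟩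
    exact E.algebraMap_mem ⟨U x, this⟩
  have h2 : (⊤ : IntermediateField K L) ≤ E.toSubfield.toIntermediateField hK := by
    rw [← hU.gen, IntermediateField.adjoin_le_iff]
    rintro _ ⟨x, rfl⟩
    exact hUE x
  rw [Generates, eq_top_iff]
  intro x _
  exact h2 (IntermediateField.mem_top (x := x))

theorem stp (hPOS : T_POS) (hG3i : T_G3i) (hG3t : T_G3t) : T_STP := by
  intro k K L _ _ _ _ _ _ _ _ _ d s U htr hs hgen hU
  have hind : AlgebraicIndependent k U := by
    by_contra hc
    have h := (hG3i k K L Unit (Fin d) (fun _ => s) (fun _ => s) U (fun _ => hs) (fun _ => hs)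
      hU).2 hc
    have hp := hPOS k K (Unit ⊕ Fin d) (Sum.elim (fun _ => s) (fun _ => s))
      (by rintro (j | j) <;> exact hs) (by rw [htr]; simp [add_comm])
      (by rintro (j | j) <;> exact hgen)
    exact hp h
  obtain ⟨h1, -, h2⟩ := hG3t k K L Unit (fun _ => s) U (d + 1) (fun _ => hs) hU hind htr
  refine ⟨hind, charZero_of_injective_algebraMap (algebraMap k (kU k U)).injective, h1, ?_,
    fun t ht => Sys.up_nz L ht, fun t ht => generates_up hU ht, ?_⟩
  · rw [h2]; simp
  · intro J _ T hT
    exact (hG3i k K L Unit J (fun _ => s) T U (fun _ => hs) hT hU).1 hind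

theorem tel (hD3 : T_D3) (hD4 : T_D4) (hSTP : T_STP) : T_TEL := by
  intro k K L _ _ _ _ _ _ _ _ _ d s U htr hs hgen hU φ hφ n
  obtain ⟨hind, hcz, hess, htr', hup, hgenup, -⟩ := hSTP k K L d s U htr hs hgen hU
  induction n with
  | zero =>
    have : Hs k ((-((0 : ℕ) : ℤ), s) :: φ) = Hs k φ := by
      ext g
      simp [mem_Hs]
    rw [this]
    simp
  | succ n ih =>
    refine ih.trans ?_
    rw [Finset.sum_range_succ, add_assoc]
    apply Nat.add_le_add_left
    have hnz : Nzl ((-(n : ℤ), s) :: φ) := Nzl.cons_iff.mpr ⟨hs, hφ⟩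
    have h1 : Hs k ((-((n + 1 : ℕ) : ℤ), s) :: φ) = Hs k ((-1, s) :: (-(n : ℤ), s) :: φ) := by
      ext g
      simp only [mem_Hs, DV.val_cons]
      refine forall_congr' fun v => ?_
      have : -((n + 1 : ℕ) : ℤ) * v.mo s + v.val φ = -1 * v.mo s + (-(n : ℤ) * v.mo s + v.val φ) := by
        push_cast; ring
      rw [this]
    rw [h1]
    exact (hD3 k K L s U _ hs hnz hU hind (hD4 (kU k U) L _ hnz.upl)
      (hD4 k K _ (Nzl.cons_iff.mpr ⟨hs, hnz⟩))).2

end Pool.Agent.H64.SCD
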